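import Pool.Agent.L7h49.WN.Def

set_option autoImplicit false

noncomputable section

open Pool.Agent.L7h49.WN

namespace Pool.Agent.L7h73.WN

lemma sl_nonneg {t : ℝ} (h : 0 ≤ t) : 0 ≤ sl t := div_nonneg h (Real.sqrt_nonneg _)

lemma sl_abs (t : ℝ) : |sl t| ≤ 1 := by
  unfold sl
  rw [abs_div, abs_of_nonneg (Real.sqrt_nonneg _)]
  apply div_le_one_of_le₀
  · exact Real.abs_le_sqrt (by nlinarith)
  · positivity

lemma mu_pair (u r : ℝ) (hr : 0 ≤ r) : mu u r + mu u (-r) = 2 + min r |u| + (u - |u|) := by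
  unfold mu
  rcases abs_cases u with ⟨h1, h2⟩ | ⟨h1, h2⟩ <;>
  rcases min_cases r |u| with ⟨h3, h4⟩ | ⟨h3, h4⟩ <;>
  rcases max_cases r 0 with ⟨h5, h6⟩ | ⟨h5, h6⟩ <;>
  rcases max_cases (r - u) 0 with ⟨h7, h8⟩ | ⟨h7, h8⟩ <;>
  rcases max_cases (-r) 0 with ⟨h9, h10⟩ | ⟨h9, h10⟩ <;>
  rcases max_cases (-r - u) 0 with ⟨h11, h12⟩ | ⟨h11, h12⟩ <;>
  linarith

lemma aN_abs (k : ℕ) : |aN k| ≤ 1 := by
  unfold aN
  split_ifs <;> first | exact sl_abs _ | (rw [abs_neg]; exact sl_abs _)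

/-- the term of the sum -/
def tm (u : ℝ) (k : ℕ) : ℝ := mu u (aN k) - Ubar u - √(1 - u ^ 2) - u / 2

lemma tm_eq (u : ℝ) (k : ℕ) : tm u k = mu u (aN k) - (J |u| + 2 - |u| + u) / 2 := by
  unfold tm Ubar
  ring

lemma tm_abs (hI : S_INT) (u : ℝ) (hu : |u| ≤ 1) (k : ℕ) : |tm u k| ≤ 5 := by
  rw [tm_eq]
  obtain ⟨-, h2, h3⟩ := hI.2 |u| (abs_nonneg u) hu
  have ha := abs_le.1 (aN_abs k)
  have hu' := abs_le.1 hu
  have hu0 := abs_nonneg u
  unfold mu
  rw [abs_le]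
  rcases max_cases (aN k) 0 with ⟨h5, h6⟩ | ⟨h5, h6⟩ <;>
  rcases max_cases (aN k - u) 0 with ⟨h7, h8⟩ | ⟨h7, h8⟩ <;>
  constructor <;> linarith

lemma aN0 (j : ℕ) : aN (4 * j) = sl (vdc j / 2) := by
  have h1 : 4 * j % 4 = 0 := by omega
  have h2 : 4 * j / 4 = j := by omega
  unfold aN
  rw [if_pos h1, h2]

lemma aN1 (j : ℕ) : aN (4 * j + 1) = -sl (vdc j / 2) := by
  have h1 : ¬ (4 * j + 1) % 4 = 0 := by omega
  have h1' : (4 * j + 1) % 4 = 1 := by omega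
  have h2 : (4 * j + 1) / 4 = j := by omega
  unfold aN
  rw [if_neg h1, if_pos h1', h2]

lemma aN2 (j : ℕ) : aN (4 * j + 2) = sl ((1 - vdc j) / 2) := by
  have h1 : ¬ (4 * j + 2) % 4 = 0 := by omega
  have h1' : ¬ (4 * j + 2) % 4 = 1 := by omega
  have h1'' : (4 * j + 2) % 4 = 2 := by omega
  have h2 : (4 * j + 2) / 4 = j := by omega
  unfold aN
  rw [if_neg h1, if_neg h1', if_pos h1'', h2]

lemma aN3 (j : ℕ) : aN (4 * j + 3) = -sl ((1 - vdc j) / 2) := by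
  have h1 : ¬ (4 * j + 3) % 4 = 0 := by omega
  have h1' : ¬ (4 * j + 3) % 4 = 1 := by omega
  have h1'' : ¬ (4 * j + 3) % 4 = 2 := by omega
  have h2 : (4 * j + 3) / 4 = j := by omega
  unfold aN
  rw [if_neg h1, if_neg h1', if_neg h1'', h2]

lemma four (hS : S_SUM) (u : ℝ) (j : ℕ) :
    tm u (4 * j) + tm u (4 * j + 1) + tm u (4 * j + 2) + tm u (4 * j + 3) =
      F |u| (vdc j) + F |u| (1 - vdc j) - 2 * J |u| := by
  obtain ⟨hv0, hv1⟩ := hS.1 j
  have e1 := mu_pair u (sl (vdc j / 2)) (sl_nonneg (by linarith))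
  have e2 := mu_pair u (sl ((1 - vdc j) / 2)) (sl_nonneg (by linarith))
  rw [tm_eq, tm_eq, tm_eq, tm_eq, aN0, aN1, aN2, aN3]
  unfold F
  linarith

lemma sum_four (f : ℕ → ℝ) (q : ℕ) : ∑ k ∈ Finset.range (4 * q), f k =
    ∑ j ∈ Finset.range q, (f (4 * j) + f (4 * j + 1) + f (4 * j + 2) + f (4 * j + 3)) := by
  induction q with
  | zero => simp
  | succ q ih =>
    rw [Finset.sum_range_succ, ← ih, show 4 * (q + 1) = 4 * q + 1 + 1 + 1 + 1 by ring]
    rw [Finset.sum_range_succ, Finset.sum_range_succ, Finset.sum_range_succ,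
      Finset.sum_range_succ]
    ring

theorem s_COL (hS : S_SUM) (hI : S_INT) : S_COL := by
  intro u hu n
  have hmain : ∀ q : ℕ, |∑ k ∈ Finset.range (4 * q), tm u k| ≤ 1 := by
    intro q
    rw [sum_four]
    have := hS.2 |u| (abs_nonneg u) hu q
    rw [Finset.sum_congr rfl fun j _ => four hS u j]
    exact this
  have hrest : ∀ q r : ℕ, |∑ k ∈ Finset.range (4 * q + r), tm u k| ≤ 1 + 5 * r := by
    intro q r
    induction r with
    | zero => simpa using hmain q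
    | succ r ih =>
      rw [← Nat.add_assoc, Finset.sum_range_succ]
      refine (abs_add_le _ _).trans ?_
      have := tm_abs hI u hu (4 * q + r)
      push_cast
      linarith
  have hn : n = 4 * (n / 4) + n % 4 := by omega
  have h := hrest (n / 4) (n % 4)
  rw [← hn] at h
  have h3 : ((n % 4 : ℕ) : ℝ) ≤ 3 := by
    have : n % 4 ≤ 3 := by omega
    exact_mod_cast this
  change |∑ k ∈ Finset.range n, tm u k| ≤ 20
  linarith

end Pool.Agent.L7h73.WN
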